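import Pool.Agent.H91.MM.Lat

/-!
# The number of subspaces which contain a given one, and weights on the dimensions
-/

set_option autoImplicit false

namespace Pool.Agent.H91.MM

open Module

variable {k K V : Type} [Field k] [Field K] [Finite K] [AddCommGroup V] [Module K V] [Finite V]

/-- `(x - 1) (x - q) ⋯ (x - q ^ (u - 1))` -/
noncomputable def pp (q : k) (u : ℕ) (x : k) : k := ∏ l ∈ Finset.range u, (x - q ^ l)

theorem pp_succ (q : k) (u : ℕ) (x : k) : pp q (u + 1) x = pp q u x * (x - q ^ u) :=
  Finset.prod_range_succ _ _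

theorem pp_ne {q n : ℕ} (hq : Distinct k q n) {u t : ℕ} (hut : u ≤ t) (ht : t ≤ n) :
    pp (q : k) u ((q : k) ^ t) ≠ 0 := by
  refine Finset.prod_ne_zero_iff.2 fun l hl => ?_
  rw [Finset.mem_range] at hl
  exact hq l t (by omega) ht

theorem pp_zero {q : ℕ} {u t : ℕ} (h : t < u) : pp (q : k) u ((q : k) ^ t) = 0 :=
  Finset.prod_eq_zero (Finset.mem_range.2 h) (sub_self _)

open Classical in
/-- the number of subspaces of dimension `t` which contain `R`, as an element of `k` -/
noncomputable def cnt (k : Type) [Field k] (R : Submodule K V) (t : ℕ) : k :=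
  ∑ U : Submodule K V, if R ≤ U ∧ finrank K U = t then 1 else 0

open Classical in
theorem cnt_step [Fintype V] (R : Submodule K V) (t : ℕ) :
    ∑ w : V, (if w ∈ R then 0 else cnt k (R ⊔ Submodule.span K {w}) t) =
      cnt k R t * ((qq K : k) ^ t - (qq K : k) ^ finrank K R) := by
  have h1 : ∀ w : V, (if w ∈ R then 0 else cnt k (R ⊔ Submodule.span K {w}) t) =
      ∑ U : Submodule K V, (if R ≤ U ∧ finrank K U = t then (1 : k) else 0) *
        ((if w ∈ U then 1 else 0) - (if w ∈ R then 1 else 0)) := by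
    intro w
    split_ifs with hw
    · symm
      refine Finset.sum_eq_zero fun U _ => ?_
      by_cases hU : R ≤ U ∧ finrank K U = t
      · rw [if_pos (hU.1 hw), sub_self, mul_zero]
      · rw [if_neg hU, zero_mul]
    · refine Finset.sum_congr rfl fun U _ => ?_
      by_cases hU : R ≤ U ∧ finrank K U = t
      · by_cases hwU : w ∈ U
        · rw [if_pos, if_pos hU, if_pos hwU]
          · ring
          · exact ⟨sup_le hU.1 ((Submodule.span_singleton_le_iff_mem _ _).2 hwU), hU.2⟩
        · rw [if_neg, if_neg hwU]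
          · ring
          · rintro ⟨h, -⟩
            exact hwU (h (Submodule.mem_sup_right (Submodule.mem_span_singleton_self _)))
      · rw [if_neg, if_neg hU, zero_mul]
        rintro ⟨h, h'⟩
        exact hU ⟨le_sup_left.trans h, h'⟩
  rw [Finset.sum_congr rfl fun w _ => h1 w, Finset.sum_comm, cnt, Finset.sum_mul]
  refine Finset.sum_congr rfl fun U _ => ?_
  rw [← Finset.mul_sum, Finset.sum_sub_distrib, sum_mem, sum_mem]
  by_cases hU : R ≤ U ∧ finrank K U = t
  · rw [hU.2]
  · rw [if_neg hU, zero_mul, zero_mul]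

theorem cnt_lt {R : Submodule K V} {t : ℕ} (h : t < finrank K R) : cnt k R t = 0 := by
  classical
  refine Finset.sum_eq_zero fun U _ => if_neg ?_
  rintro ⟨h1, h2⟩
  have := Submodule.finrank_mono h1
  omega

theorem cnt_eq {R : Submodule K V} {t : ℕ} (h : finrank K R = t) : cnt k R t = 1 := by
  classical
  rw [cnt, Finset.sum_eq_single R, if_pos ⟨le_rfl, h⟩]
  · intro U _ hne
    refine if_neg ?_
    rintro ⟨h1, h2⟩
    exact hne (Submodule.eq_of_le_of_finrank_eq h1 (by rw [h, h2])).symm
  · intro h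
    exact absurd (Finset.mem_univ _) h

open Classical in
/-- The number of subspaces which contain a given one. -/
theorem cnt_formula (hq : Distinct k (qq K) (finrank K V)) {t : ℕ} (ht : t ≤ finrank K V)
    (R : Submodule K V) :
    cnt k R t * pp (qq K : k) (finrank K R) ((qq K : k) ^ finrank K V) *
        pp (qq K : k) t ((qq K : k) ^ t) =
      pp (qq K : k) t ((qq K : k) ^ finrank K V) *
        pp (qq K : k) (finrank K R) ((qq K : k) ^ t) := by
  let _ : Fintype V := Fintype.ofFinite V
  rcases lt_or_ge t (finrank K R) with h | h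
  · rw [cnt_lt h, pp_zero h]
    ring
  · obtain ⟨d, hd⟩ := Nat.exists_eq_add_of_le h
    induction d generalizing R with
    | zero =>
      rw [add_zero] at hd
      rw [cnt_eq hd.symm, ← hd]
      ring
    | succ d ih =>
      have h1 := cnt_step (k := k) R t
      have h2 : ∀ w : V, (if w ∈ R then 0 else cnt k (R ⊔ Submodule.span K {w}) t) *
          pp (qq K : k) (finrank K R + 1) ((qq K : k) ^ finrank K V) *
            pp (qq K : k) t ((qq K : k) ^ t) =
          ((if w ∈ (⊤ : Submodule K V) then (1 : k) else 0) - (if w ∈ R then (1 : k) else 0)) *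
            (pp (qq K : k) t ((qq K : k) ^ finrank K V) *
              pp (qq K : k) (finrank K R + 1) ((qq K : k) ^ t)) := by
        intro w
        rw [if_pos Submodule.mem_top]
        split_ifs with hw
        · ring
        · have h3 := ih (R ⊔ Submodule.span K {w}) (by rw [finrank_sup_span hw]; omega)
            (by rw [finrank_sup_span hw]; omega)
          rw [finrank_sup_span hw] at h3
          rw [h3]
          ring
      have h3 := Finset.sum_congr rfl fun (w : V) (_ : w ∈ Finset.univ) => h2 w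
      rw [← Finset.sum_mul, ← Finset.sum_mul, ← Finset.sum_mul, h1, Finset.sum_sub_distrib,
        sum_mem, sum_mem, finrank_top, pp_succ, pp_succ] at h3
      have h4 : (qq K : k) ^ t - (qq K : k) ^ finrank K R ≠ 0 := hq _ _ (by omega) ht
      have h5 : (qq K : k) ^ finrank K V - (qq K : k) ^ finrank K R ≠ 0 :=
        hq _ _ (by omega) le_rfl
      apply mul_right_cancel₀ (mul_ne_zero h4 h5)
      linear_combination h3

/-- Weights on `s + 1` dimensions. -/
theorem exists_weights {q n : ℕ} (hq : Distinct k q n) (s : ℕ) (I : Finset ℕ)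
    (hI : ∀ i ∈ I, i ≤ n) (hc : I.card = s + 1) :
    ∃ w : ℕ → k, ∀ r ≤ s, ∑ i ∈ I, w i * pp (q : k) r ((q : k) ^ i) = if r = s then 1 else 0 := by
  have hinj : Set.InjOn (fun i : ℕ => (q : k) ^ i) I := by
    intro i hi j hj h
    rcases lt_trichotomy i j with h' | h' | h'
    · exact absurd (sub_eq_zero.2 h.symm) (hq i j h' (hI j hj))
    · exact h'
    · exact absurd (sub_eq_zero.2 h) (hq j i h' (hI i hi))
  refine ⟨fun i => (∏ j ∈ I.erase i, ((q : k) ^ i - (q : k) ^ j))⁻¹, fun r hr => ?_⟩
  let P : Polynomial k := ∏ l ∈ Finset.range r, (Polynomial.X - Polynomial.C ((q : k) ^ l))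
  have hmon : P.Monic := Polynomial.monic_prod_of_monic _ _ fun l _ => Polynomial.monic_X_sub_C _
  have hPd : P.natDegree = r := by
    rw [Polynomial.natDegree_prod_of_monic _ _ fun l _ => Polynomial.monic_X_sub_C _,
      Finset.sum_congr rfl fun l _ => Polynomial.natDegree_X_sub_C _, Finset.sum_const,
      Finset.card_range, smul_eq_mul, mul_one]
  have hPe : ∀ x : k, P.eval x = pp (q : k) r x := by
    intro x
    rw [Polynomial.eval_prod, pp]
    simp only [Polynomial.eval_sub, Polynomial.eval_X, Polynomial.eval_C]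
  have h1 := Lagrange.coeff_eq_sum (s := I) (v := fun i : ℕ => (q : k) ^ i) hinj (P := P) (by
      rw [hc]
      refine lt_of_le_of_lt Polynomial.degree_le_natDegree ?_
      rw [hPd]
      exact_mod_cast Nat.lt_succ_of_le hr)
  rw [hc, Nat.add_sub_cancel] at h1
  have h3 : ∑ i ∈ I, (∏ j ∈ I.erase i, ((q : k) ^ i - (q : k) ^ j))⁻¹ *
      pp (q : k) r ((q : k) ^ i) = P.coeff s := by
    rw [h1]
    refine Finset.sum_congr rfl fun i _ => ?_
    rw [hPe, div_eq_mul_inv, mul_comm]
  rw [h3]
  split_ifs with h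
  · rw [← h]
    have := hmon
    rw [Polynomial.Monic, Polynomial.leadingCoeff, hPd] at this
    exact this
  · exact Polynomial.coeff_eq_zero_of_natDegree_lt (by rw [hPd]; omega)

open Classical in
/-- Weights on the subspaces whose dimension is in `I`. -/
theorem level_sum (hq : Distinct k (qq K) (finrank K V)) {s : ℕ} (hs : s ≤ finrank K V)
    (I : Finset ℕ) (hI : ∀ i ∈ I, i ≤ finrank K V) (hc : I.card = s + 1) :
    ∃ W : ℕ → k, ∀ R : Submodule K V, finrank K R ≤ s →
      (∑ U : Submodule K V, if R ≤ U ∧ finrank K U ∈ I then W (finrank K U) else 0) =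
        if finrank K R = s then 1 else 0 := by
  obtain ⟨w, hw⟩ := exists_weights hq s I hI hc
  let n := finrank K V
  let Q : k := (qq K : k)
  refine ⟨fun i => pp Q s (Q ^ n) * w i * pp Q i (Q ^ i) / pp Q i (Q ^ n), fun R hR => ?_⟩
  have h1 : (∑ U : Submodule K V, if R ≤ U ∧ finrank K U ∈ I then
      pp Q s (Q ^ n) * w (finrank K U) * pp Q (finrank K U) (Q ^ finrank K U) /
        pp Q (finrank K U) (Q ^ n) else 0) =
      ∑ i ∈ I, pp Q s (Q ^ n) * w i * pp Q i (Q ^ i) / pp Q i (Q ^ n) * cnt k R i := by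
    simp only [cnt, Finset.mul_sum]
    rw [Finset.sum_comm]
    refine Finset.sum_congr rfl fun U _ => ?_
    by_cases hU : R ≤ U ∧ finrank K U ∈ I
    · rw [if_pos hU, Finset.sum_eq_single (finrank K U), if_pos ⟨hU.1, rfl⟩, mul_one]
      · intro i _ hi
        rw [if_neg (fun h => hi h.2.symm), mul_zero]
      · intro h
        exact absurd hU.2 h
    · rw [if_neg hU]
      symm
      refine Finset.sum_eq_zero fun i hi => ?_
      rw [if_neg, mul_zero]
      rintro ⟨h1, h2⟩
      exact hU ⟨h1, h2 ▸ hi⟩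
  rw [h1]
  have hRn : pp Q (finrank K R) (Q ^ n) ≠ 0 := pp_ne hq (hR.trans hs) le_rfl
  have h2 : ∀ i ∈ I, pp Q s (Q ^ n) * w i * pp Q i (Q ^ i) / pp Q i (Q ^ n) * cnt k R i =
      pp Q s (Q ^ n) / pp Q (finrank K R) (Q ^ n) * (w i * pp Q (finrank K R) (Q ^ i)) := by
    intro i hi
    have h3 := cnt_formula hq (hI i hi) R
    have h4 : pp Q i (Q ^ n) ≠ 0 := pp_ne hq (hI i hi) le_rfl
    change cnt k R i * pp Q (finrank K R) (Q ^ n) * pp Q i (Q ^ i) =
      pp Q i (Q ^ n) * pp Q (finrank K R) (Q ^ i) at h3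
    field_simp
    linear_combination pp Q s (Q ^ n) * w i * h3
  rw [Finset.sum_congr rfl h2, ← Finset.mul_sum, hw _ hR]
  split_ifs with h
  · rw [h, mul_one, div_self (pp_ne hq hs le_rfl)]
  · rw [mul_zero]

end Pool.Agent.H91.MM
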