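import Pool.Agent.H91.MM.Main

/-!
# Gaussian binomial coefficients and the order of the general linear group
-/

set_option autoImplicit false

namespace Pool.Agent.H91.MM

open Module

variable {k K V : Type} [Field k] [Field K] [Finite K] [AddCommGroup V] [Module K V] [Finite V]

/-- The Gaussian binomial coefficient: the number of `j`-dimensional subspaces of an
`n`-dimensional vector space over a field with `q` elements. -/
def gaussBinom (q n j : ℕ) : ℕ :=
  (∏ l ∈ Finset.range j, (q ^ n - q ^ l)) / ∏ l ∈ Finset.range j, (q ^ j - q ^ l)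

theorem one_lt_q (K : Type) [Field K] [Finite K] : 1 < qq K := Finite.one_lt_card

theorem distinct_rat (K : Type) [Field K] [Finite K] (n : ℕ) : Distinct ℚ (qq K) n := by
  intro a b hab _
  have h1 : (1 : ℚ) < (qq K : ℚ) := by exact_mod_cast one_lt_q K
  exact ne_of_gt (sub_pos.2 (pow_lt_pow_right₀ h1 hab))

theorem pp_cast {q t u : ℕ} (hq : 1 ≤ q) (hu : u ≤ t) :
    pp (q : ℚ) u ((q : ℚ) ^ t) = ((∏ l ∈ Finset.range u, (q ^ t - q ^ l) : ℕ) : ℚ) := by
  rw [pp, Nat.cast_prod]
  refine Finset.prod_congr rfl fun l hl => ?_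
  rw [Finset.mem_range] at hl
  rw [Nat.cast_sub (Nat.pow_le_pow_right hq (by omega)), Nat.cast_pow, Nat.cast_pow]

theorem numSub_eq {j : ℕ} (hj : j ≤ finrank K V) :
    numSub K V j = gaussBinom (Nat.card K) (finrank K V) j := by
  classical
  have h := cnt_formula (k := ℚ) (distinct_rat K (finrank K V)) hj (⊥ : Submodule K V)
  have hq : 1 ≤ qq K := (one_lt_q K).le
  have h1 : cnt ℚ (⊥ : Submodule K V) j = numSub K V j := by
    rw [← card_fiber, cnt, Finset.sum_boole]
    simp only [bot_le, true_and]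
  rw [h1, finrank_bot, pp_cast hq le_rfl, pp_cast hq hj] at h
  simp only [pp, Finset.range_zero, Finset.prod_empty, mul_one] at h
  have h2 : numSub K V j * ∏ l ∈ Finset.range j, (qq K ^ j - qq K ^ l) =
      ∏ l ∈ Finset.range j, (qq K ^ finrank K V - qq K ^ l) := by
    exact_mod_cast h
  have h3 : 0 < ∏ l ∈ Finset.range j, (qq K ^ j - qq K ^ l) := by
    refine Finset.prod_pos fun l hl => ?_
    rw [Finset.mem_range] at hl
    exact Nat.sub_pos_of_lt (Nat.pow_lt_pow_right (one_lt_q K) hl)
  unfold gaussBinom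
  rw [← h2, Nat.mul_div_cancel _ h3]

/-- The condition on the characteristic. -/
theorem distinct_of_GL {K : Type} [Field K] [Finite K] {n : ℕ}
    (h : (Nat.card (Matrix.GeneralLinearGroup (Fin n) K) : k) ≠ 0) : Distinct k (qq K) n := by
  let _ : Fintype K := Fintype.ofFinite K
  have hq : 1 ≤ qq K := (one_lt_q K).le
  have e : Fintype.card K = qq K := Nat.card_eq_fintype_card.symm
  rw [Matrix.card_GL_field, e, Nat.cast_prod] at h
  have h1 : ∀ i < n, (qq K : k) ^ n - (qq K : k) ^ i ≠ 0 := by
    intro i hi h0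
    apply h
    refine Finset.prod_eq_zero (Finset.mem_univ (⟨i, hi⟩ : Fin n)) ?_
    rw [Nat.cast_sub (Nat.pow_le_pow_right hq hi.le), Nat.cast_pow, Nat.cast_pow]
    exact h0
  intro a b hab hb h0
  have e1 : (qq K : k) ^ b - (qq K : k) ^ a = (qq K : k) ^ a * ((qq K : k) ^ (b - a) - 1) := by
    rw [mul_sub, ← pow_add, Nat.add_sub_cancel' hab.le, mul_one]
  rw [e1] at h0
  rcases mul_eq_zero.1 h0 with h2 | h2
  · have ha : 1 ≤ a := by
      rcases Nat.eq_zero_or_pos a with rfl | ha
      · rw [pow_zero] at h2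
        exact absurd h2 one_ne_zero
      · exact ha
    have h3 : (qq K : k) = 0 := (pow_eq_zero_iff (by omega)).1 h2
    refine h1 1 (by omega) ?_
    rw [h3, zero_pow (by omega), zero_pow (by omega), sub_zero]
  · refine h1 (n - (b - a)) (by omega) ?_
    have e2 : (qq K : k) ^ n = (qq K : k) ^ (n - (b - a)) * (qq K : k) ^ (b - a) := by
      rw [← pow_add]
      congr 1
      omega
    rw [e2]
    linear_combination ((qq K : k) ^ (n - (b - a))) * h2

end Pool.Agent.H91.MM
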