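import Mathlib

/-!
# Counting in the lattice of subspaces of a vector space over a finite field
-/

set_option autoImplicit false

namespace Pool.Agent.H91.MM

open Module

variable {k K V : Type} [Field k] [Field K] [Finite K] [AddCommGroup V] [Module K V] [Finite V]

instance : Module.Finite K V := Module.Finite.of_finite

noncomputable instance : Fintype (Submodule K V) := Fintype.ofFinite _

/-- the number of elements of `K` -/
noncomputable abbrev qq (K : Type) : ℕ := Nat.card K

theorem card_sub (U : Submodule K V) : Nat.card U = qq K ^ finrank K U :=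
  Module.natCard_eq_pow_finrank

open Classical in
/-- The number of elements of a subspace as a sum. -/
theorem sum_mem (U : Submodule K V) [Fintype V] :
    ∑ w : V, (if w ∈ U then (1 : k) else 0) = (qq K : k) ^ finrank K U := by
  rw [Finset.sum_boole, ← Nat.cast_pow, ← card_sub]
  congr 1
  exact (Nat.subtype_card (p := fun w => w ∈ U) _ (by simp)).symm

theorem inf_sup_iff (X Y : Submodule K V) (w : V) (hw : w ∉ Y) :
    X ⊓ (Y ⊔ Submodule.span K {w}) = ⊥ ↔ X ⊓ Y = ⊥ ∧ w ∉ X ⊔ Y := by
  constructor
  · intro h
    refine ⟨?_, fun hwXY => ?_⟩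
    · rw [eq_bot_iff, ← h]
      exact inf_le_inf_left _ le_sup_left
    · obtain ⟨x, hx, y, hy, rfl⟩ := Submodule.mem_sup.1 hwXY
      have h1 : x ∈ X ⊓ (Y ⊔ Submodule.span K {x + y}) := by
        refine ⟨hx, ?_⟩
        have h2 : x + y ∈ Y ⊔ Submodule.span K {x + y} :=
          Submodule.mem_sup_right (Submodule.mem_span_singleton_self _)
        have h3 : y ∈ Y ⊔ Submodule.span K {x + y} := Submodule.mem_sup_left hy
        simpa using Submodule.sub_mem _ h2 h3
      rw [h, Submodule.mem_bot] at h1
      subst h1
      exact hw (by rwa [zero_add])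
  · rintro ⟨h1, h2⟩
    rw [eq_bot_iff]
    rintro x ⟨hx, hx'⟩
    obtain ⟨y, hy, z, hz, rfl⟩ := Submodule.mem_sup.1 hx'
    obtain ⟨c, rfl⟩ := Submodule.mem_span_singleton.1 hz
    rcases eq_or_ne c 0 with rfl | hc
    · rw [zero_smul, add_zero] at hx ⊢
      rw [← h1]
      exact ⟨hx, hy⟩
    · exfalso
      apply h2
      have h3 : c • w ∈ X ⊔ Y := by
        have h4 : y + c • w ∈ X ⊔ Y := Submodule.mem_sup_left hx
        have h5 : y ∈ X ⊔ Y := Submodule.mem_sup_right hy
        simpa using Submodule.sub_mem _ h4 h5
      have := Submodule.smul_mem _ c⁻¹ h3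
      rwa [smul_smul, inv_mul_cancel₀ hc, one_smul] at this

theorem finrank_sup_span {R : Submodule K V} {w : V} (hw : w ∉ R) :
    finrank K ↥(R ⊔ Submodule.span K {w}) = finrank K R + 1 := by
  have h0 : w ≠ 0 := fun h => hw (h ▸ R.zero_mem)
  have h1 := Submodule.finrank_sup_add_finrank_inf_eq R (Submodule.span K {w})
  have h2 : R ⊓ Submodule.span K {w} = ⊥ := by
    rw [eq_bot_iff]
    rintro x ⟨hx, hx'⟩
    obtain ⟨c, rfl⟩ := Submodule.mem_span_singleton.1 hx'
    rcases eq_or_ne c 0 with rfl | hc
    · rw [zero_smul]
      exact Submodule.zero_mem _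
    · exfalso
      apply hw
      have := Submodule.smul_mem _ c⁻¹ hx
      rwa [smul_smul, inv_mul_cancel₀ hc, one_smul] at this
  rw [h2, finrank_bot, add_zero, finrank_span_singleton h0] at h1
  exact h1

/-- `q ^ a ≠ q ^ b` in `k` for `a < b ≤ n` -/
def Distinct (k : Type) [Field k] (q n : ℕ) : Prop :=
  ∀ a b : ℕ, a < b → b ≤ n → (q : k) ^ b - (q : k) ^ a ≠ 0

open Classical in
/-- Functions on the subspaces of dimension `j` are determined by the sums over the subspaces which
are disjoint from a given subspace of dimension `m`, for `j ≤ m`, `j + m ≤ n`. -/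
theorem disjoint_inj (hq : Distinct k (qq K) (finrank K V)) {j m : ℕ} (hjm : j ≤ m)
    (hn : j + m ≤ finrank K V) (f : Submodule K V → k)
    (hf : ∀ X : Submodule K V, finrank K X ≠ j → f X = 0)
    (h : ∀ Y : Submodule K V, finrank K Y = m → ∑ X, (if X ⊓ Y = ⊥ then f X else 0) = 0) :
    f = 0 := by
  let _ : Fintype V := Fintype.ofFinite V
  -- smaller dimensions
  have step1 : ∀ d : ℕ, ∀ Y : Submodule K V, finrank K Y + d = m →
      ∑ X, (if X ⊓ Y = ⊥ then f X else 0) = 0 := by
    intro d
    induction d with
    | zero => exact fun Y hY => h Y hY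
    | succ d ih =>
      intro Y hY
      have h1 : ∑ w : V, (if w ∈ Y then 0 else ∑ X, (if X ⊓ (Y ⊔ Submodule.span K {w}) = ⊥ then
          f X else 0)) = 0 := by
        refine Finset.sum_eq_zero fun w _ => ?_
        split_ifs with hw
        · rfl
        · exact ih _ (by rw [finrank_sup_span hw]; omega)
      have h2 : ∀ w : V, (if w ∈ Y then 0 else ∑ X, (if X ⊓ (Y ⊔ Submodule.span K {w}) = ⊥ then
          f X else 0)) = ∑ X, (if X ⊓ Y = ⊥ then f X else 0) * (if w ∈ X ⊔ Y then 0 else 1) := by
        intro w
        split_ifs with hw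
        · symm
          refine Finset.sum_eq_zero fun X _ => ?_
          rw [if_pos (Submodule.mem_sup_right hw), mul_zero]
        · refine Finset.sum_congr rfl fun X _ => ?_
          rw [if_congr (inf_sup_iff X Y w hw) rfl rfl]
          by_cases h3 : X ⊓ Y = ⊥ <;> by_cases h4 : w ∈ X ⊔ Y <;> simp [h3, h4]
      rw [Finset.sum_congr rfl fun w _ => h2 w, Finset.sum_comm] at h1
      simp only [← Finset.mul_sum] at h1
      have h3 : ∀ X : Submodule K V, (if X ⊓ Y = ⊥ then f X else 0) * ∑ w : V, (if w ∈ X ⊔ Y then
          (0 : k) else 1) = (if X ⊓ Y = ⊥ then f X else 0) *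
          ((qq K : k) ^ finrank K V - (qq K : k) ^ (j + finrank K Y)) := by
        intro X
        by_cases h4 : X ⊓ Y = ⊥
        · by_cases h5 : finrank K X = j
          · congr 1
            have h6 : ∀ w : V, (if w ∈ X ⊔ Y then (0 : k) else 1) =
                (if w ∈ (⊤ : Submodule K V) then (1 : k) else 0) -
                  (if w ∈ X ⊔ Y then (1 : k) else 0) := by
              intro w
              rw [if_pos Submodule.mem_top]
              split_ifs <;> simp
            rw [Finset.sum_congr rfl fun w _ => h6 w, Finset.sum_sub_distrib, sum_mem, sum_mem,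
              finrank_top]
            have h7 := Submodule.finrank_sup_add_finrank_inf_eq X Y
            rw [h4, finrank_bot, add_zero, h5] at h7
            rw [h7]
          · rw [hf X h5]
            simp
        · rw [if_neg h4, zero_mul, zero_mul]
      rw [Finset.sum_congr rfl fun X _ => h3 X, ← Finset.sum_mul] at h1
      exact (mul_eq_zero.1 h1).resolve_right (hq _ _ (by omega) le_rfl)
  -- sums over the subspaces which contain a given one
  have step2 : ∀ r : ℕ, r ≤ j → ∀ Z : Submodule K V, finrank K Z = r →
      ∑ X, (if Z ≤ X then f X else 0) = 0 := by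
    intro r
    induction r using Nat.strong_induction_on with
    | _ r ih =>
      intro hr Z hZ
      have h0 : ∑ X, (if X ⊓ Z = ⊥ then f X else 0) = 0 := step1 (m - r) Z (by omega)
      rcases Nat.eq_zero_or_pos r with hr0 | hr0
      · have hZ0 : Z = ⊥ := by
          rw [← Submodule.finrank_eq_zero (R := K), hZ, hr0]
        subst hZ0
        simpa using h0
      · have hmom : ∀ i < r, ∑ X, f X * ((qq K : k) ^ finrank K ↥(X ⊓ Z)) ^ i = 0 := by
          intro i hi
          have h1 : ∀ X : Submodule K V, f X * ((qq K : k) ^ finrank K ↥(X ⊓ Z)) ^ i =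
              ∑ w : Fin i → V, if (∀ l, w l ∈ Z) ∧ Submodule.span K (Set.range w) ≤ X then f X
                else 0 := by
            intro X
            rw [← sum_mem, ← Fin.prod_const, Finset.prod_univ_sum, Finset.mul_sum,
              Fintype.piFinset_univ]
            refine Finset.sum_congr rfl fun w _ => ?_
            by_cases h2 : (∀ l, w l ∈ Z) ∧ Submodule.span K (Set.range w) ≤ X
            · rw [if_pos h2, Finset.prod_eq_one, mul_one]
              intro l _
              rw [if_pos ⟨h2.2 (Submodule.subset_span ⟨l, rfl⟩), h2.1 l⟩]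
            · rw [if_neg h2]
              obtain ⟨l, hl⟩ : ∃ l, w l ∉ X ⊓ Z := by
                by_contra h3
                push Not at h3
                refine h2 ⟨fun l => (h3 l).2, Submodule.span_le.2 ?_⟩
                rintro _ ⟨l, rfl⟩
                exact (h3 l).1
              rw [Finset.prod_eq_zero (Finset.mem_univ l) (if_neg hl), mul_zero]
          rw [Finset.sum_congr rfl fun X _ => h1 X, Finset.sum_comm]
          refine Finset.sum_eq_zero fun w _ => ?_
          by_cases hw : ∀ l, w l ∈ Z
          · have h2 : finrank K ↥(Submodule.span K (Set.range w)) ≤ i := by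
              have := finrank_range_le_card (R := K) w
              rwa [Fintype.card_fin] at this
            have h3 := ih _ (lt_of_le_of_lt h2 hi) (by omega) _ rfl
            exact (Finset.sum_congr rfl fun X _ =>
              if_congr ⟨fun h => h.2, fun h => ⟨hw, h⟩⟩ rfl rfl).trans h3
          · refine Finset.sum_eq_zero fun X _ => if_neg fun h => hw h.1
        have hpoly : ∀ P : Polynomial k, P.natDegree < r →
            ∑ X, f X * P.eval ((qq K : k) ^ finrank K ↥(X ⊓ Z)) = 0 := by
          intro P hP
          simp only [Polynomial.eval_eq_sum_range, Finset.mul_sum]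
          rw [Finset.sum_comm]
          refine Finset.sum_eq_zero fun i hi => ?_
          rw [Finset.mem_range] at hi
          rw [← mul_zero (P.coeff i), ← hmom i (by omega), Finset.mul_sum]
          refine Finset.sum_congr rfl fun X _ => ?_
          ring
        let P : Polynomial k := ∏ l ∈ Finset.Ico 1 r, (Polynomial.X - Polynomial.C ((qq K : k) ^ l))
        have hPd : P.natDegree = r - 1 := by
          rw [Polynomial.natDegree_prod_of_monic _ _ fun l _ => Polynomial.monic_X_sub_C _,
            Finset.sum_congr rfl fun l _ => Polynomial.natDegree_X_sub_C _, Finset.sum_const,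
            Nat.card_Ico, smul_eq_mul, mul_one]
        have hPe : ∀ x : k, P.eval x = ∏ l ∈ Finset.Ico 1 r, (x - (qq K : k) ^ l) := by
          intro x
          rw [Polynomial.eval_prod]
          simp
        have h4 := hpoly P (by omega)
        have h5 : ∀ X : Submodule K V, f X * P.eval ((qq K : k) ^ finrank K ↥(X ⊓ Z)) =
            P.eval 1 * (if X ⊓ Z = ⊥ then f X else 0) +
              P.eval ((qq K : k) ^ r) * (if Z ≤ X then f X else 0) := by
          intro X
          have hle : finrank K ↥(X ⊓ Z) ≤ r := by
            rw [← hZ]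
            exact Submodule.finrank_mono inf_le_right
          by_cases h6 : X ⊓ Z = ⊥
          · have h7 : ¬ Z ≤ X := by
              intro h8
              rw [inf_eq_right.2 h8] at h6
              rw [h6, finrank_bot] at hZ
              omega
            rw [if_pos h6, if_neg h7, h6, finrank_bot, pow_zero]
            ring
          · by_cases h7 : Z ≤ X
            · rw [if_neg h6, if_pos h7, inf_eq_right.2 h7, hZ]
              ring
            · rw [if_neg h6, if_neg h7, mul_zero, mul_zero, add_zero, hPe,
                Finset.prod_eq_zero (i := finrank K ↥(X ⊓ Z)), mul_zero]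
              · rw [Finset.mem_Ico]
                constructor
                · rw [Nat.one_le_iff_ne_zero]
                  intro h8
                  exact h6 ((Submodule.finrank_eq_zero (R := K)).1 h8)
                · refine lt_of_le_of_ne hle fun h8 => h7 ?_
                  have h9 : X ⊓ Z = Z := Submodule.eq_of_le_of_finrank_eq inf_le_right
                    (by rw [h8, hZ])
                  exact inf_eq_right.1 h9
              · rw [sub_self]
        rw [Finset.sum_congr rfl fun X _ => h5 X, Finset.sum_add_distrib, ← Finset.mul_sum,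
          ← Finset.mul_sum, h0, mul_zero, zero_add] at h4
        refine (mul_eq_zero.1 h4).resolve_left ?_
        rw [hPe]
        refine Finset.prod_ne_zero_iff.2 fun l hl => ?_
        rw [Finset.mem_Ico] at hl
        exact hq l r hl.2 (by omega)
  funext X₀
  by_cases hX : finrank K X₀ = j
  · have h1 := step2 j le_rfl X₀ hX
    rw [Finset.sum_eq_single X₀, if_pos le_rfl] at h1
    · exact h1
    · intro X _ hne
      split_ifs with hle
      · refine hf X fun hX' => hne ?_
        exact (Submodule.eq_of_le_of_finrank_eq hle (by rw [hX, hX'])).symm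
      · rfl
    · intro h2
      exact absurd (Finset.mem_univ _) h2
  · exact hf X₀ hX

end Pool.Agent.H91.MM
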