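import Pool.Agent.H91.MM.Poly

/-!
# Apolar algebras of the generating polynomials of independent sets over a finite field
-/

set_option autoImplicit false

namespace Pool.Agent.H91.MM

open Module Pool.Agent.H826R3.SM Pool.Agent.H37.CU MvPolynomial

variable {k K V : Type} [Field k] [Field K] [Finite K] [AddCommGroup V] [Module K V] [Finite V]
  {N : ℕ}

/-- The number of subspaces of dimension `j`. -/
noncomputable def numSub (K V : Type) [Field K] [AddCommGroup V] [Module K V] (j : ℕ) : ℕ :=
  Nat.card {U : Submodule K V // finrank K U = j}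

/-- duality -/
theorem exists_dual (K V : Type) [Field K] [AddCommGroup V] [Module K V] [Module.Finite K V] :
    ∃ e : Submodule K V ≃ Submodule K V, ∀ U, finrank K (e U) + finrank K U = finrank K V := by
  let ℓ : Dual K V ≃ₗ[K] V := LinearEquiv.ofFinrankEq _ _ Subspace.dual_finrank_eq
  refine ⟨(Subspace.orderIsoFiniteDimensional (K := K) (V := V)).toEquiv.trans
    (OrderDual.ofDual.trans (Submodule.orderIsoMapComap ℓ).toEquiv), fun U => ?_⟩
  have h := Subspace.finrank_add_finrank_dualAnnihilator_eq (K := K) (V := V) U
  have h2 : finrank K ↥(Submodule.map (ℓ : Dual K V →ₗ[K] V) (Submodule.dualAnnihilator U)) =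
      finrank K (Submodule.dualAnnihilator U) := LinearEquiv.finrank_map_eq ℓ _
  change finrank K ↥(Submodule.map (ℓ : Dual K V →ₗ[K] V) (Submodule.dualAnnihilator U)) + _ = _
  rw [h2, add_comm]
  exact h

theorem numSub_dual {j : ℕ} (hj : j ≤ finrank K V) :
    numSub K V (finrank K V - j) = numSub K V j := by
  obtain ⟨e, he⟩ := exists_dual K V
  refine Nat.card_congr (e.subtypeEquiv fun U => ?_)
  have h1 := he U
  constructor <;> intro h <;> omega

open Classical in
theorem card_fiber (j : ℕ) :
    (Finset.univ.filter fun U : Submodule K V => finrank K U = j).card =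
      numSub K V j :=
  (Nat.subtype_card (p := fun U : Submodule K V => finrank K U = j) _ (by simp)).symm

open Classical in
theorem card_LevS {s : ℕ} (hs : s ≤ finrank K V) :
    Fintype.card (LevS K V s) = ∑ j ∈ Finset.range (s + 1), numSub K V (min j (s - j)) := by
  have h1 : Fintype.card (LevS K V s) = ∑ i ∈ levI (finrank K V) s, numSub K V i := by
    rw [Fintype.card_subtype, Finset.card_eq_sum_ones,
      ← Finset.sum_fiberwise_of_maps_to (t := levI (finrank K V) s)
        (g := fun U : Submodule K V => finrank K U)]
    · refine Finset.sum_congr rfl fun i hi => ?_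
      rw [← Finset.card_eq_sum_ones, ← card_fiber]
      congr 1
      ext U
      rw [Finset.mem_filter, Finset.mem_filter, Finset.mem_filter]
      constructor
      · rintro ⟨-, h⟩
        exact ⟨Finset.mem_univ _, h⟩
      · rintro ⟨-, rfl⟩
        exact ⟨⟨Finset.mem_univ _, (levI_spec hs hi).2⟩, rfl⟩
    · intro U hU
      exact mem_levI hs (finrank_le_V U) (Finset.mem_filter.1 hU).2
  rw [h1]
  unfold levI
  rw [Finset.sum_image]
  · refine Finset.sum_congr rfl fun i hi => ?_
    rw [Finset.mem_range] at hi
    split_ifs with h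
    · rw [min_eq_left (by omega)]
    · rw [min_eq_right (by omega), numSub_dual (by omega)]
  · intro i hi j hj h
    rw [Finset.mem_coe, Finset.mem_range] at hi hj
    simp only at h
    split_ifs at h <;> omega

open Classical in
theorem card_LevS_le (K V : Type) [Field K] [Finite K] [AddCommGroup V] [Module K V] [Finite V]
    (s : ℕ) : Fintype.card (LevS K V s) ≤
    Fintype.card {U : Submodule K V // 2 * finrank K U ≤ s} +
      Fintype.card {U : Submodule K V // 2 * finrank K U < s} := by
  refine (Fintype.card_subtype_or _ _).trans (Nat.add_le_add_left ?_ _)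
  obtain ⟨e, he⟩ := exists_dual K V
  refine le_of_eq (Fintype.card_congr (e.subtypeEquiv fun U => ?_))
  have h1 := he U
  constructor <;> intro h <;> omega

theorem indep_ne {v : Fin N → V} (hv : AllPoints K v) {s : ℕ} (hs : s ≤ finrank K V) :
    apolar (indepPoly k (K := K) v s) ≠ 0 := by
  obtain ⟨S, hS, hSc⟩ := exists_basis hv (⊤ : Submodule K V)
  rw [finrank_top] at hSc
  obtain ⟨T, hTS, hT⟩ := Finset.exists_subset_card_eq (show s ≤ S.card by omega)
  have h1 : LinearIndepOn K v (S : Set (Fin N)) := by
    rw [indep_iff, hS, hSc, finrank_top]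
  have h2 : LinearIndepOn K v (T : Set (Fin N)) := h1.mono (by exact_mod_cast hTS)
  rw [indep_iff, hT] at h2
  intro h
  have h3 := apolar_indep (k := k) (K := K) v s (ind T) 1
  rw [h, ind_support, ind_degree, if_pos ⟨hT, h2⟩] at h3
  exact zero_ne_one h3

open Classical in
theorem main (k : Type) [Field k] [Infinite k] (v : Fin N → V) (hv : AllPoints K v) {s : ℕ}
    (hs : s ≤ finrank K V) (hq : Distinct k (qq K) (finrank K V)) :
    finrank k (ApolarAlg (apolar (indepPoly k (K := K) v s))) =
        ∑ j ∈ Finset.range (s + 1), numSub K V (min j (s - j)) ∧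
      Smoothable k (ApolarAlg (apolar (indepPoly k (K := K) v s))) ∧
      (∀ m : ℕ, defect k (Pow k (ApolarAlg (apolar (indepPoly k (K := K) v s))) m) = 0) ∧
      QOne k (ApolarAlg (apolar (indepPoly k (K := K) v s))) := by
  have hfin : Module.Finite k (ApolarAlg (apolar (indepPoly k (K := K) v s))) :=
    finite_apolar (indep_dual v s)
  have hnt : Nontrivial (ApolarAlg (apolar (indepPoly k (K := K) v s))) :=
    nontrivial_apolar (indep_ne hv hs)
  obtain ⟨α, hα⟩ := cubature k v hs hq
  have hsec : HasSec k (ApolarAlg (apolar (indepPoly k (K := K) v s))) (LevS K V s) :=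
    hasSec_of_cubature (indep_dual v s) hα
  choose B hB using fun U : Submodule K V => exists_basis hv U
  have hdim : Fintype.card (LevS K V s) ≤
      finrank k (ApolarAlg (apolar (indepPoly k (K := K) v s))) := by
    have h1 := isotropic_bound (apolar (indepPoly k (K := K) v s))
      (sqS k B fun U : Submodule K V => 2 * finrank K U ≤ s)
      (sqS k B fun U : Submodule K V => 2 * finrank K U < s)
      (sqS_inj hs hq hB _ fun U h => h) (sqS_inj hs hq hB _ fun U h => le_of_lt h) ?_
    · rw [Module.finrank_pi, Module.finrank_pi] at h1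
      exact (card_LevS_le K V s).trans h1
    · intro e₁ e₂
      rw [sqS_apply, sqS_apply, Finset.sum_mul_sum, map_sum]
      refine Finset.sum_eq_zero fun U _ => ?_
      rw [map_sum]
      refine Finset.sum_eq_zero fun W _ => ?_
      rw [monomial_mul, apolar_indep, if_neg]
      rintro ⟨h, -⟩
      rw [map_add, ind_degree, ind_degree, (hB _).2, (hB _).2] at h
      have h1 := U.2
      have h2 := W.2
      omega
  obtain ⟨h1, h2, h3, h4⟩ := of_hasSec hsec hdim
  exact ⟨h4.trans (card_LevS hs), h1, h2, h3⟩

end Pool.Agent.H91.MM
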