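import Pool.Agent.H91.MM.Count
import Pool.Agent.H37.CU.Mat

/-!
# The generating polynomial of the independent sets of a family of vectors over a finite field
-/

set_option autoImplicit false

namespace Pool.Agent.H91.MM

open Module Pool.Agent.H826R3.SM Pool.Agent.H37.CU MvPolynomial

variable {k K V : Type} [Field k] [Field K] [Finite K] [AddCommGroup V] [Module K V] [Finite V]
  {N : ℕ}

open Classical in
/-- The sum of the squarefree monomials of degree `s` in the variables `x_i` for which the
corresponding vectors `v i` are linearly independent. -/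
noncomputable def indepPoly (k : Type) {K V : Type} {N : ℕ} [Field k] [Field K] [AddCommGroup V]
    [Module K V] (v : Fin N → V) (s : ℕ) : MvPolynomial (Fin N) k :=
  ∑ S ∈ (Finset.univ.powersetCard s).filter
    (fun S : Finset (Fin N) => LinearIndepOn K v (S : Set (Fin N))), ∏ i ∈ S, X i

/-- the span of the vectors with index in `S` -/
def sp (K : Type) {V : Type} {N : ℕ} [Field K] [AddCommGroup V] [Module K V] (v : Fin N → V)
    (S : Finset (Fin N)) : Submodule K V := Submodule.span K (v '' (S : Set (Fin N)))

theorem sp_union (v : Fin N → V) (S T : Finset (Fin N)) [DecidableEq (Fin N)] :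
    sp K v (S ∪ T) = sp K v S ⊔ sp K v T := by
  unfold sp
  rw [Finset.coe_union, Set.image_union, Submodule.span_union]

theorem sp_le_iff (v : Fin N → V) (S : Finset (Fin N)) (U : Submodule K V) :
    sp K v S ≤ U ↔ ∀ i ∈ S, v i ∈ U := by
  unfold sp
  rw [Submodule.span_le]
  constructor
  · intro h i hi
    exact h ⟨i, hi, rfl⟩
  · rintro h _ ⟨i, hi, rfl⟩
    exact h i hi

theorem range_eq (v : Fin N → V) (S : Finset (Fin N)) :
    Set.range (fun x : (S : Set (Fin N)) => v x) = v '' (S : Set (Fin N)) := by
  rw [Set.image_eq_range]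

theorem finrank_sp_le (v : Fin N → V) (S : Finset (Fin N)) : finrank K (sp K v S) ≤ S.card := by
  have h := finrank_range_le_card (R := K) (fun x : (S : Set (Fin N)) => v x)
  rw [range_eq] at h
  have h2 : Fintype.card (S : Set (Fin N)) = S.card := by simp
  rw [h2] at h
  exact h

theorem indep_iff (v : Fin N → V) (S : Finset (Fin N)) :
    LinearIndepOn K v (S : Set (Fin N)) ↔ finrank K (sp K v S) = S.card := by
  unfold LinearIndepOn
  rw [linearIndependent_iff_card_eq_finrank_span, Set.finrank, range_eq]
  have h2 : Fintype.card (S : Set (Fin N)) = S.card := by simp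
  rw [h2]
  exact eq_comm

open Classical in
theorem apolar_indep (v : Fin N → V) (s : ℕ) (a : Fin N →₀ ℕ) (c : k) :
    apolar (indepPoly k (K := K) v s) (monomial a c) =
      if a.degree = s ∧ finrank K (sp K v a.support) = s then c else 0 := by
  rw [apolar_monomial, indepPoly, coeff_sum]
  have e : ∀ t : Finset (Fin N), coeff a (∏ i ∈ t, (X i : MvPolynomial (Fin N) k)) =
      if ind t = a then 1 else 0 := fun t => by
    have : (∏ i ∈ t, (X i : MvPolynomial (Fin N) k)) = monomial (ind t) 1 := by
      unfold ind
      rw [monomial_sum_one]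
      rfl
    rw [this, coeff_monomial]
  simp only [e]
  split_ifs with h
  · have hc : a.support.card = s :=
      le_antisymm ((support_card_le a).trans_eq h.1) (h.2.symm.le.trans (finrank_sp_le v _))
    have ha : ind a.support = a := (eq_ind (hc.trans h.1.symm)).symm
    rw [Finset.sum_eq_single a.support]
    · rw [if_pos ha, mul_one]
      have h3 : (a.prod fun _ m => (m.factorial : k)) = 1 := by
        refine Finset.prod_eq_one fun i hi => ?_
        change ((a i).factorial : k) = 1
        have h4 : a i = 1 := by
          rw [← ha, ind_apply, if_pos hi]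
        rw [h4]
        simp
      rw [h3, mul_one]
    · intro t _ ht
      rw [if_neg]
      intro h3
      apply ht
      rw [← h3, ind_support]
    · intro h3
      refine absurd (Finset.mem_filter.2 ⟨Finset.mem_powersetCard.2 ⟨Finset.subset_univ _, hc⟩,
        ?_⟩) h3
      rw [indep_iff, h.2, hc]
  · rw [Finset.sum_eq_zero, mul_zero, mul_zero]
    intro t ht
    rw [if_neg]
    intro h3
    apply h
    rw [Finset.mem_filter, Finset.mem_powersetCard, indep_iff] at ht
    rw [← h3, ind_support, ind_degree, ht.2, ht.1.2]
    exact ⟨rfl, rfl⟩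

theorem indep_dual (v : Fin N → V) (s : ℕ) :
    IsDualForm s (apolar (indepPoly k (K := K) v s)) := by
  intro m hm F hF
  rw [F.as_sum, map_sum]
  refine Finset.sum_eq_zero fun a ha => ?_
  rw [apolar_indep, if_neg]
  rintro ⟨h, -⟩
  apply hm
  rw [← h, Finsupp.degree_eq_weight_one]
  exact (hF (mem_support_iff.mp ha)).symm

/-- Every nonzero vector is a multiple of one of the vectors `v i`. -/
def AllPoints (K : Type) {V : Type} {N : ℕ} [Field K] [AddCommGroup V] [Module K V]
    (v : Fin N → V) : Prop := ∀ w : V, w ≠ 0 → ∃ (i : Fin N) (c : K), w = c • v i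

theorem exists_basis {v : Fin N → V} (hv : AllPoints K v) (U : Submodule K V) :
    ∃ S : Finset (Fin N), sp K v S = U ∧ S.card = finrank K U := by
  obtain ⟨b, hbJ, -, hsp, hli⟩ := exists_linearIndepOn_extension (K := K) (v := v)
    (s := ∅) (t := {i | v i ∈ U}) (linearIndepOn_empty K v) (Set.empty_subset _)
  obtain ⟨S, rfl⟩ := (Set.toFinite b).exists_finset_coe
  have h1 : sp K v S = U := by
    refine le_antisymm ((sp_le_iff v S U).2 fun i hi => hbJ hi) fun w hw => ?_
    rcases eq_or_ne w 0 with rfl | hw0
    · exact Submodule.zero_mem _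
    · obtain ⟨i, c, rfl⟩ := hv w hw0
      have hc : c ≠ 0 := by
        rintro rfl
        exact hw0 (zero_smul _ _)
      have h2 : v i ∈ U := by
        have := Submodule.smul_mem _ c⁻¹ hw
        rwa [smul_smul, inv_mul_cancel₀ hc, one_smul] at this
      exact Submodule.smul_mem _ _ (hsp ⟨i, h2, rfl⟩)
  refine ⟨S, h1, ?_⟩
  rw [← h1]
  exact ((indep_iff v S).1 hli).symm

/-- The subspaces of the dimensions used. -/
abbrev LevS (K V : Type) [Field K] [AddCommGroup V] [Module K V] (s : ℕ) : Type :=
  {U : Submodule K V // 2 * finrank K U ≤ s ∨ 2 * (finrank K V - finrank K U) < s}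

theorem finrank_le_V (U : Submodule K V) : finrank K U ≤ finrank K V := Submodule.finrank_le U

open Classical in
/-- The cubature formula. -/
theorem cubature (k : Type) [Field k] (v : Fin N → V) {s : ℕ} (hs : s ≤ finrank K V)
    (hq : Distinct k (qq K) (finrank K V)) :
    ∃ α : LevS K V s → k, IsCubature s (apolar (indepPoly k (K := K) v s))
      (fun (U : LevS K V s) i => if v i ∈ U.1 then (1 : k) else 0) α := by
  obtain ⟨W, hW⟩ := level_sum (k := k) hq hs (levI (finrank K V) s)
    (fun i hi => (levI_spec hs hi).1) (card_levI hs)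
  have hW' : ∀ R : Submodule K V, finrank K R ≤ s →
      (∑ U : LevS K V s, if R ≤ U.1 then W (finrank K U.1) else 0) =
        if finrank K R = s then 1 else 0 := by
    intro R hR
    rw [← hW R hR, ← Finset.sum_subtype (Finset.univ.filter fun U : Submodule K V =>
      2 * finrank K U ≤ s ∨ 2 * (finrank K V - finrank K U) < s) (by simp)
      (fun U => if R ≤ U then W (finrank K U) else 0), Finset.sum_filter]
    refine Finset.sum_congr rfl fun U _ => ?_
    have h1 : (2 * finrank K U ≤ s ∨ 2 * (finrank K V - finrank K U) < s) ↔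
        finrank K U ∈ levI (finrank K V) s :=
      ⟨fun h => mem_levI hs (finrank_le_V U) h, fun h => (levI_spec hs h).2⟩
    by_cases h2 : finrank K U ∈ levI (finrank K V) s
    · rw [if_pos (h1.2 h2)]
      by_cases h3 : R ≤ U
      · rw [if_pos h3, if_pos ⟨h3, h2⟩]
      · rw [if_neg h3, if_neg fun h => h3 h.1]
    · rw [if_neg fun h => h2 (h1.1 h), if_neg fun h => h2 h.2]
  have key : ∀ (a : Fin N →₀ ℕ) (c : k), a.degree ≤ s →
      ∑ U : LevS K V s, W (finrank K U.1) * eval (fun i => if v i ∈ U.1 then (1 : k) else 0)
        (monomial a c) = if finrank K (sp K v a.support) = s then c else 0 := by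
    intro a c ha
    have h1 : ∀ U : LevS K V s, W (finrank K U.1) * eval (fun i => if v i ∈ U.1 then (1 : k) else 0)
        (monomial a c) = c * if sp K v a.support ≤ U.1 then W (finrank K U.1) else 0 := by
      intro U
      rw [eval_monomial]
      split_ifs with h
      · rw [Finsupp.prod, Finset.prod_eq_one, mul_one, mul_comm]
        intro i hi
        rw [if_pos ((sp_le_iff v _ _).1 h i hi), one_pow]
      · rw [sp_le_iff] at h
        push Not at h
        obtain ⟨i, hi, hiU⟩ := h
        rw [Finsupp.prod, Finset.prod_eq_zero hi, mul_zero, mul_zero]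
        rw [if_neg hiU, zero_pow (Finsupp.mem_support_iff.1 hi)]
    rw [Finset.sum_congr rfl fun U _ => h1 U, ← Finset.mul_sum, hW' _
      ((finrank_sp_le v _).trans ((support_card_le a).trans ha))]
    split_ifs
    · rw [mul_one]
    · rw [mul_zero]
  have hsum : ∀ (F : MvPolynomial (Fin N) k) (d : ℕ), F.IsHomogeneous d → d ≤ s →
      ∑ U : LevS K V s, W (finrank K U.1) * eval (fun i => if v i ∈ U.1 then (1 : k) else 0) F =
      ∑ a ∈ F.support, if finrank K (sp K v a.support) = s then coeff a F else 0 := by
    intro F d hF hd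
    have hdeg : ∀ a ∈ F.support, a.degree = d := by
      intro a ha
      rw [Finsupp.degree_eq_weight_one]
      exact hF (mem_support_iff.mp ha)
    rw [← Finset.sum_congr rfl fun a ha => key a (coeff a F) ((hdeg a ha).le.trans hd),
      Finset.sum_comm]
    refine Finset.sum_congr rfl fun U _ => ?_
    conv_lhs => rw [F.as_sum, map_sum, Finset.mul_sum]
  refine ⟨fun U => W (finrank K U.1), ?_, ?_⟩
  · intro d hd F hF
    rw [hsum F d hF hd.le]
    refine Finset.sum_eq_zero fun a ha => if_neg fun h => ?_
    have h1 : a.degree = d := by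
      rw [Finsupp.degree_eq_weight_one]
      exact hF (mem_support_iff.mp ha)
    have h2 := support_card_le a
    have h3 := finrank_sp_le (K := K) v a.support
    omega
  · intro F hF
    rw [hsum F s hF le_rfl]
    conv_rhs => rw [F.as_sum, map_sum]
    refine Finset.sum_congr rfl fun a ha => ?_
    rw [apolar_indep]
    have h1 : a.degree = s := by
      rw [Finsupp.degree_eq_weight_one]
      exact hF (mem_support_iff.mp ha)
    exact if_congr ⟨fun h => ⟨h1, h⟩, fun h => h.2⟩ rfl rfl

open Classical in
/-- The linear map to the squarefree polynomials. -/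
noncomputable def sqS (k : Type) [Field k] (B : Submodule K V → Finset (Fin N))
    (p : Submodule K V → Prop) : ({U // p U} → k) →ₗ[k] MvPolynomial (Fin N) k :=
  ∑ U : {U // p U}, (monomial (ind (B U.1))) ∘ₗ LinearMap.proj U

open Classical in
theorem sqS_apply (B : Submodule K V → Finset (Fin N)) (p : Submodule K V → Prop)
    (e : {U // p U} → k) : sqS k B p e = ∑ U : {U // p U}, monomial (ind (B U.1)) (e U) := by
  unfold sqS
  rw [LinearMap.sum_apply]
  rfl

open Classical in
theorem sqS_inj {v : Fin N → V} {s : ℕ} (hs : s ≤ finrank K V)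
    (hq : Distinct k (qq K) (finrank K V)) {B : Submodule K V → Finset (Fin N)}
    (hB : ∀ U, sp K v (B U) = U ∧ (B U).card = finrank K U) (p : Submodule K V → Prop)
    (hp : ∀ U, p U → 2 * finrank K U ≤ s) (e : {U // p U} → k)
    (he : sqS k B p e ∈ annOf (apolar (indepPoly k (K := K) v s))) : e = 0 := by
  funext ⟨X₀, hX₀⟩
  have h0 := hp X₀ hX₀
  let f : Submodule K V → k := fun X =>
    if h : p X ∧ finrank K X = finrank K X₀ then e ⟨X, h.1⟩ else 0
  have key : f = 0 := by
    refine disjoint_inj hq (j := finrank K X₀) (m := s - finrank K X₀) (by omega) (by omega) f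
      (fun X hX => dif_neg fun h => hX h.2) fun Y hY => ?_
    have h1 := he (monomial (ind (B Y)) 1)
    rw [sqS_apply, Finset.sum_mul, map_sum] at h1
    simp only [monomial_mul, mul_one] at h1
    have h2 : ∀ U : {U // p U}, apolar (indepPoly k (K := K) v s)
        (monomial (ind (B U.1) + ind (B Y)) (e U)) = if U.1 ⊓ Y = ⊥ then f U.1 else 0 := by
      intro U
      rw [apolar_indep, ind_add_support, sp_union, (hB _).1, (hB _).1, map_add, ind_degree,
        ind_degree, (hB _).2, (hB _).2]
      have h4 := Submodule.finrank_sup_add_finrank_inf_eq U.1 Y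
      by_cases h5 : U.1 ⊓ Y = ⊥
      · rw [if_pos h5]
        rw [h5, finrank_bot, add_zero] at h4
        by_cases h6 : finrank K U.1 = finrank K X₀
        · have h7 : f U.1 = e U := dif_pos ⟨U.2, h6⟩
          rw [h7, if_pos]
          constructor <;> omega
        · have h7 : f U.1 = 0 := dif_neg fun h => h6 h.2
          rw [h7, if_neg]
          rintro ⟨h8, -⟩
          omega
      · rw [if_neg h5, if_neg]
        rintro ⟨h8, h9⟩
        apply h5
        rw [← Submodule.finrank_eq_zero (R := K)]
        omega
    rw [Finset.sum_congr rfl fun U _ => h2 U] at h1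
    rw [← Finset.sum_subtype (Finset.univ.filter p) (by simp)
      (fun U => if U ⊓ Y = ⊥ then f U else 0), Finset.sum_filter_of_ne] at h1
    · exact h1
    · intro U _ hU
      by_contra hpU
      apply hU
      have h5 : f U = 0 := dif_neg fun h => hpU h.1
      rw [h5, ite_self]
  have h1 : f X₀ = e ⟨X₀, hX₀⟩ := dif_pos ⟨hX₀, rfl⟩
  rw [← h1, key]
  rfl

end Pool.Agent.H91.MM
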